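import Pool.Agent.LAT.StmtsM

/-!
# Squad LAT, row BAS: the Gram determinant does not depend on the basis
-/

set_option autoImplicit false

namespace Pool.Agent.LAT.H21

open Matrix

theorem gram_eq {m : ℕ} {ι : Type} (v : ι → Fin m → ℤ) :
    gram v = Matrix.of v * (Matrix.of v)ᵀ := by
  apply Matrix.ext
  intro i j
  rfl

theorem det_gram_eq {m : ℕ} {ι : Type} [Fintype ι] [DecidableEq ι] (v w : ι → Fin m → ℤ)
    (A : Matrix ι ι ℤ) (h : Matrix.of v = A * Matrix.of w) :
    (gram v).det = A.det ^ 2 * (gram w).det := by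
  rw [gram_eq, gram_eq, h, Matrix.transpose_mul, Matrix.mul_assoc, ← Matrix.mul_assoc (Matrix.of w),
    Matrix.det_mul, Matrix.det_mul, Matrix.det_transpose]
  ring

theorem det_gram_basis {m : ℕ} (M : Submodule ℤ (Fin m → ℤ)) {ι : Type} [Fintype ι]
    [DecidableEq ι] (b b' : Module.Basis ι ℤ M) :
    (gram fun i => ((b i : M) : Fin m → ℤ)).det = (gram fun i => ((b' i : M) : Fin m → ℤ)).det := by
  have h : (Matrix.of fun i => ((b i : M) : Fin m → ℤ)) =
      (b'.toMatrix b)ᵀ * Matrix.of fun i => ((b' i : M) : Fin m → ℤ) := by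
    apply Matrix.ext
    intro i k
    rw [Matrix.mul_apply]
    have h1 : ((b i : M) : Fin m → ℤ) = ∑ j, b'.repr (b i) j • ((b' j : M) : Fin m → ℤ) := by
      conv_lhs => rw [← b'.sum_repr (b i)]
      rw [Submodule.coe_sum]
      rfl
    have h2 := congrFun h1 k
    rw [Finset.sum_apply] at h2
    exact h2
  rw [det_gram_eq _ _ _ h, Matrix.det_transpose]
  have h3 : (b'.toMatrix b).det * (b.toMatrix b').det = 1 := by
    rw [← Matrix.det_mul, Module.Basis.toMatrix_mul_toMatrix_flip, Matrix.det_one]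
  rcases Int.mul_eq_one_iff_eq_one_or_neg_one.1 h3 with ⟨h4, -⟩ | ⟨h4, -⟩
  · rw [h4]
    ring
  · rw [h4]
    ring

theorem bas : BasStmt := by
  intro m M ι _ _ b
  have hc : Fintype.card ι = Module.finrank ℤ M := (Module.finrank_eq_card_basis b).symm
  have e : ι ≃ Fin (Module.finrank ℤ M) := Fintype.equivFinOfCardEq hc
  rw [det_gram_basis M b ((Module.finBasis ℤ M).reindex e.symm)]
  have h1 : (gram fun i => ((((Module.finBasis ℤ M).reindex e.symm) i : M) : Fin m → ℤ)) =
      (gram fun i => ((Module.finBasis ℤ M i : M) : Fin m → ℤ)).submatrix e e := by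
    apply Matrix.ext
    intro i j
    rw [Matrix.submatrix_apply]
    show ((((Module.finBasis ℤ M).reindex e.symm) i : M) : Fin m → ℤ) ⬝ᵥ
      ((((Module.finBasis ℤ M).reindex e.symm) j : M) : Fin m → ℤ) = _
    rw [Module.Basis.reindex_apply, Module.Basis.reindex_apply, Equiv.symm_symm]
    rfl
  rw [h1, Matrix.det_submatrix_equiv_self]
  rfl

end Pool.Agent.LAT.H21
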