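import Pool.Agent.LAT.StmtsM

/-!
# Squad LAT, row FIS: adding a new direction
-/

set_option autoImplicit false

namespace Pool.Agent.LAT.H21

open Matrix

/-- the real vectors of a family of integer vectors -/
noncomputable def rv {m : ℕ} {ι : Type} (v : ι → Fin m → ℤ) : ι → Fin m → ℝ := fun i j => (v i j : ℝ)

theorem cast_gram {m : ℕ} {ι : Type} [Fintype ι] [DecidableEq ι] (v : ι → Fin m → ℤ) :
    ((gram v).det : ℝ) = (rgram (rv v)).det := by
  rw [Int.cast_det]
  congr 1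
  apply Matrix.ext
  intro i j
  rw [Matrix.map_apply]
  show ((v i ⬝ᵥ v j : ℤ) : ℝ) = rv v i ⬝ᵥ rv v j
  unfold dotProduct rv
  push_cast
  rfl

theorem rv_snoc {m r : ℕ} (v : Fin r → Fin m → ℤ) (w : Fin m → ℤ) :
    rv (Fin.snoc v w : Fin (r + 1) → Fin m → ℤ) =
      (Fin.snoc (rv v) (fun j => (w j : ℝ)) : Fin (r + 1) → Fin m → ℝ) := by
  funext i j
  refine Fin.lastCases ?_ (fun i => ?_) i
  · unfold rv
    rw [Fin.snoc_last, Fin.snoc_last]
  · unfold rv
    rw [Fin.snoc_castSucc, Fin.snoc_castSucc]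

theorem gd_span (hB : BasStmt) {m k : ℕ} (v : Fin k → Fin m → ℤ) (hv : LinearIndependent ℤ v) :
    gd (Submodule.span ℤ (Set.range v)) = (gram v).det ∧
      rk (Submodule.span ℤ (Set.range v)) = k := by
  constructor
  · have h1 := hB m (Submodule.span ℤ (Set.range v)) _ (Module.Basis.span hv)
    rw [← h1]
    congr 2
    funext i
    rw [Module.Basis.span_apply]
  · unfold rk
    rw [finrank_span_eq_card hv, Fintype.card_fin]

theorem snoc_li {m k : ℕ} (v : Fin k → Fin m → ℤ) (hv : LinearIndependent ℤ v) (w : Fin m → ℤ)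
    (hw : ∀ c : ℤ, c ≠ 0 → c • w ∉ Submodule.span ℤ (Set.range v)) :
    LinearIndependent ℤ (Fin.snoc v w : Fin (k + 1) → Fin m → ℤ) := by
  rw [Fintype.linearIndependent_iff]
  intro g hg
  rw [Fin.sum_univ_castSucc, Fin.snoc_last] at hg
  have h1 : ∑ i : Fin k, g i.castSucc • (Fin.snoc v w : Fin (k + 1) → Fin m → ℤ) i.castSucc =
      ∑ i : Fin k, g i.castSucc • v i := by
    refine Finset.sum_congr rfl fun i _ => ?_
    rw [Fin.snoc_castSucc]
  rw [h1] at hg
  have h2 : g (Fin.last k) = 0 := by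
    by_contra h
    refine hw _ h ?_
    have h3 : g (Fin.last k) • w = -∑ i : Fin k, g i.castSucc • v i := by
      rw [eq_neg_iff_add_eq_zero, add_comm]
      exact hg
    rw [h3]
    refine Submodule.neg_mem _ (Submodule.sum_mem _ fun i _ => ?_)
    exact Submodule.smul_mem _ _ (Submodule.subset_span ⟨i, rfl⟩)
  rw [h2, zero_smul, add_zero] at hg
  have h4 := Fintype.linearIndependent_iff.1 hv _ hg
  intro i
  refine Fin.lastCases h2 (fun i => h4 i) i

theorem span_snoc {m k : ℕ} (v : Fin k → Fin m → ℤ) (w : Fin m → ℤ) :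
    Submodule.span ℤ (Set.range (Fin.snoc v w : Fin (k + 1) → Fin m → ℤ)) =
      Submodule.span ℤ (Set.range v) ⊔ Submodule.span ℤ {w} := by
  rw [← Submodule.span_union]
  congr 1
  ext x
  constructor
  · rintro ⟨i, rfl⟩
    refine Fin.lastCases (Or.inr ?_) (fun i => Or.inl ⟨i, ?_⟩) i
    · rw [Fin.snoc_last]
      exact Set.mem_singleton _
    · rw [Fin.snoc_castSucc]
  · rintro (⟨i, rfl⟩ | rfl)
    · exact ⟨i.castSucc, Fin.snoc_castSucc _ _ _⟩
    · exact ⟨Fin.last k, Fin.snoc_last _ _⟩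

theorem exists_basis_family {m : ℕ} (A : Submodule ℤ (Fin m → ℤ)) :
    ∃ (k : ℕ) (v : Fin k → Fin m → ℤ), LinearIndependent ℤ v ∧
      Submodule.span ℤ (Set.range v) = A := by
  refine ⟨_, fun i => ((Module.finBasis ℤ A i : A) : Fin m → ℤ), ?_, ?_⟩
  · have h := (Module.finBasis ℤ A).linearIndependent
    exact h.map' A.subtype (Submodule.ker_subtype A)
  · have h := (Module.finBasis ℤ A).span_eq
    have h2 := congrArg (Submodule.map A.subtype) h
    rw [Submodule.map_span, Submodule.map_subtype_top, ← Set.range_comp] at h2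
    exact h2

theorem dist_mono {m r s : ℕ} (a : Fin r → Fin m → ℤ) (b : Fin s → Fin m → ℤ)
    (h : ∀ i, a i ∈ Submodule.span ℤ (Set.range b)) (y : Fin r → ℝ) :
    ∃ z : Fin s → ℝ, ∑ i, y i • rv a i = ∑ j, z j • rv b j := by
  have h1 : ∀ i, ∃ c : Fin s → ℤ, ∑ j, c j • b j = a i := fun i =>
    (Submodule.mem_span_range_iff_exists_fun ℤ).1 (h i)
  choose c hc using h1
  refine ⟨fun j => ∑ i, y i * (c i j : ℝ), ?_⟩
  have h2 : ∀ i, rv a i = ∑ j, (c i j : ℝ) • rv b j := by
    intro i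
    funext k
    rw [Finset.sum_apply]
    show ((a i k : ℤ) : ℝ) = _
    rw [← hc i, Finset.sum_apply]
    push_cast
    refine Finset.sum_congr rfl fun j _ => ?_
    rw [Pi.smul_apply, Pi.smul_apply, smul_eq_mul, smul_eq_mul]
    push_cast
    rfl
  calc ∑ i, y i • rv a i = ∑ i, ∑ j, (y i * (c i j : ℝ)) • rv b j := by
        refine Finset.sum_congr rfl fun i _ => ?_
        rw [h2 i, Finset.smul_sum]
        refine Finset.sum_congr rfl fun j _ => ?_
        rw [smul_smul]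
    _ = ∑ j, ∑ i, (y i * (c i j : ℝ)) • rv b j := Finset.sum_comm
    _ = ∑ j, (∑ i, y i * (c i j : ℝ)) • rv b j := by
        refine Finset.sum_congr rfl fun j _ => ?_
        rw [Finset.sum_smul]

theorem fis (hB : BasStmt) (hP : PosStmt) (hG : GsdStmt) : FisStmt := by
  intro m A B w hAB hw
  obtain ⟨r, a, ha, rfl⟩ := exists_basis_family A
  obtain ⟨s, b, hb, rfl⟩ := exists_basis_family B
  have hwA : ∀ c : ℤ, c ≠ 0 → c • w ∉ Submodule.span ℤ (Set.range a) :=
    fun c hc h => hw c hc (hAB h)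
  have ha' := snoc_li a ha w hwA
  have hb' := snoc_li b hb w hw
  obtain ⟨ga, ra⟩ := gd_span hB a ha
  obtain ⟨gb, rb⟩ := gd_span hB b hb
  obtain ⟨ga', ra'⟩ := gd_span hB _ ha'
  obtain ⟨gb', rb'⟩ := gd_span hB _ hb'
  rw [span_snoc] at ga' ra' gb' rb'
  refine ⟨?_, ?_, ?_⟩
  · rw [ga, gb, ga', gb']
    have pa : (1 : ℝ) ≤ (rgram (rv a)).det := by
      rw [← cast_gram]
      exact_mod_cast hP.1 m r a ha
    have pb : (1 : ℝ) ≤ (rgram (rv b)).det := by
      rw [← cast_gram]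
      exact_mod_cast hP.1 m s b hb
    obtain ⟨δa, h1, -, ya, h2⟩ := hG m r (rv a) (fun j => (w j : ℝ)) (by linarith [pa] |> ne_of_gt)
    obtain ⟨δb, h3, h4, -⟩ := hG m s (rv b) (fun j => (w j : ℝ)) (by linarith [pb] |> ne_of_gt)
    have hm : ∀ i, a i ∈ Submodule.span ℤ (Set.range b) := fun i =>
      hAB (Submodule.subset_span ⟨i, rfl⟩)
    obtain ⟨z, hz⟩ := dist_mono a b hm ya
    have hδ : δb ≤ δa := by
      rw [h2, hz]
      exact h4 z
    have key : ((gram (Fin.snoc b w : Fin (s + 1) → Fin m → ℤ)).det : ℝ) * ((gram a).det : ℝ) ≤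
        ((gram (Fin.snoc a w : Fin (r + 1) → Fin m → ℤ)).det : ℝ) * ((gram b).det : ℝ) := by
      rw [cast_gram, cast_gram, cast_gram, cast_gram, rv_snoc, rv_snoc, h1, h3]
      have h5 : 0 ≤ (rgram (rv a)).det * (rgram (rv b)).det :=
        mul_nonneg (by linarith) (by linarith)
      nlinarith [mul_le_mul_of_nonneg_left hδ h5]
    exact_mod_cast key
  · rw [ra', ra]
  · rw [rb', rb]

end Pool.Agent.LAT.H21
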