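import Pool.Agent.Helper21_LAT.BAS

/-!
# Squad LAT, rows VEC and IDX
-/

set_option autoImplicit false

namespace Pool.Agent.LAT.H21

open Matrix

theorem vec (hB : BasStmt) : VecStmt := by
  intro m L D w hw hL hD
  have hb : ∃ b : Module.Basis Unit ℤ (Submodule.span ℤ {w}),
      ((b () : Submodule.span ℤ {w}) : Fin m → ℤ) = w := by
    refine ⟨(Module.Basis.singleton Unit ℤ).map
      (LinearEquiv.toSpanNonzeroSingleton ℤ (Fin m → ℤ) w hw), ?_⟩
    rw [Module.Basis.map_apply, Module.Basis.singleton_apply,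
      LinearEquiv.toSpanNonzeroSingleton_one]
  obtain ⟨b, hb⟩ := hb
  have h1 : rk (Submodule.span ℤ {w}) = 1 := by
    unfold rk
    rw [Module.finrank_eq_card_basis b, Fintype.card_unit]
  have h2 := hB m (Submodule.span ℤ {w}) Unit b
  rw [Matrix.det_unique] at h2
  have h3 : gd (Submodule.span ℤ {w}) = w ⬝ᵥ w := by
    rw [← h2]
    show ((b () : Submodule.span ℤ {w}) : Fin m → ℤ) ⬝ᵥ
      ((b () : Submodule.span ℤ {w}) : Fin m → ℤ) = _
    rw [hb]
  refine ⟨fun h => hw (Submodule.span_singleton_eq_bot.1 h), ?_, ?_⟩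
  · rw [Submodule.span_singleton_le_iff_mem]
    exact hL
  · rw [h1, h3, pow_one]
    exact hD

theorem det_gram_family {m : ℕ} (M : Submodule ℤ (Fin m → ℤ)) {ι : Type} [Fintype ι]
    [DecidableEq ι] (b' : Module.Basis ι ℤ M) (v : ι → M) :
    (gram fun i => ((v i : M) : Fin m → ℤ)).det =
      b'.det v ^ 2 * (gram fun i => ((b' i : M) : Fin m → ℤ)).det := by
  have h : (Matrix.of fun i => ((v i : M) : Fin m → ℤ)) =
      (b'.toMatrix v)ᵀ * Matrix.of fun i => ((b' i : M) : Fin m → ℤ) := by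
    apply Matrix.ext
    intro i k
    rw [Matrix.mul_apply]
    have h1 : ((v i : M) : Fin m → ℤ) = ∑ j, b'.repr (v i) j • ((b' j : M) : Fin m → ℤ) := by
      conv_lhs => rw [← b'.sum_repr (v i)]
      rw [Submodule.coe_sum]
      rfl
    have h2 := congrFun h1 k
    rw [Finset.sum_apply] at h2
    exact h2
  rw [det_gram_eq _ _ _ h, Matrix.det_transpose, Module.Basis.det_apply]

theorem idx (hB : BasStmt) : IdxStmt := by
  intro m M M' hle hrk
  have hrk' : Module.finrank ℤ M = Module.finrank ℤ M' := hrk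
  have e : M.comap M'.subtype ≃ₗ[ℤ] M := Submodule.comapSubtypeEquivOfLe hle
  have bN : ∃ bN : Module.Basis (Fin (Module.finrank ℤ M')) ℤ (M.comap M'.subtype), True :=
    ⟨((Module.finBasis ℤ M).reindex (finCongr hrk')).map
      (Submodule.comapSubtypeEquivOfLe hle).symm, trivial⟩
  obtain ⟨bN, -⟩ := bN
  have bM : ∃ bM : Module.Basis (Fin (Module.finrank ℤ M')) ℤ M,
      ∀ i, ((bM i : M) : Fin m → ℤ) = ((bN i : M') : Fin m → ℤ) := by
    refine ⟨bN.map (Submodule.comapSubtypeEquivOfLe hle), fun i => ?_⟩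
    rw [Module.Basis.map_apply]
    rfl
  obtain ⟨bM, hbM⟩ := bM
  have h1 := hB m M _ bM
  have h2 := det_gram_family M' (Module.finBasis ℤ M') (fun i => (bN i : M'))
  have h3 := Submodule.natAbs_det_basis_change (Module.finBasis ℤ M') (M.comap M'.subtype) bN
  have hfin : Finite (M' ⧸ M.comap M'.subtype) := by
    refine Submodule.finiteQuotientOfFreeOfRankEq _ ?_
    rw [← hrk']
    exact LinearEquiv.finrank_eq e
  refine ⟨Nat.card (M' ⧸ M.comap M'.subtype), rfl, Nat.card_pos, ?_, fun hk => ?_⟩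
  · rw [← h1, ← h3, Int.natCast_natAbs, sq_abs]
    have h4 : (fun i => ((bM i : M) : Fin m → ℤ)) = fun i => ((bN i : M') : Fin m → ℤ) :=
      funext hbM
    rw [h4, h2]
    rfl
  · refine le_antisymm hle ?_
    have h5 : Subsingleton (M' ⧸ M.comap M'.subtype) := (Nat.card_eq_one_iff_unique.1 hk).1
    rw [Submodule.Quotient.subsingleton_iff] at h5
    intro x hx
    have h6 : (⟨x, hx⟩ : M') ∈ M.comap M'.subtype := by
      rw [h5]
      exact Submodule.mem_top
    exact h6

end Pool.Agent.LAT.H21
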